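import Pool.Agent.BSE.Stmts
import Pool.Agent.Helper64_FR.LOW

/-!
# Module WTS: eigenvectors that are not torus invariant
-/

open MeasureTheory Matrix Finset
open scoped ComplexConjugate

namespace Pool.Agent.BSE.H81

open Pool.Agent.Helper64_FR
open Pool.Agent.Helper64_FR.FIX

variable {n : ℕ}

theorem UB_mono {A B : Finset (Fin n)} (h : A ⊆ B) {g : UU n} (hg : g ∈ UB A) : g ∈ UB B := by
  intro i j hij
  refine hg i j ?_
  rcases hij with h1 | h1
  · exact Or.inl fun h2 => h1 (h h2)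
  · exact Or.inr fun h2 => h1 (h h2)

/-- elements of `U_{i}` commute with the elements of `U_B` if `i ∉ B` -/
theorem comm_of_notMem {i : Fin n} {B : Finset (Fin n)} (hi : i ∉ B) {g h : UU n}
    (hg : g ∈ UB ({i} : Finset (Fin n))) (hh : h ∈ UB B) : g * h = h * g := by
  have hg' : ∀ a b, (a ∉ ({i} : Finset (Fin n)) ∨ b ∉ ({i} : Finset (Fin n))) →
    (g : Matrix (Fin n) (Fin n) ℂ) a b = if a = b then 1 else 0 := hg
  have hh' : ∀ a b, (a ∉ B ∨ b ∉ B) →
    (h : Matrix (Fin n) (Fin n) ℂ) a b = if a = b then 1 else 0 := hh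
  -- `g` is diagonal
  have hgd : (g : Matrix (Fin n) (Fin n) ℂ) =
      Matrix.diagonal fun a => (g : Matrix (Fin n) (Fin n) ℂ) a a := by
    ext a b
    by_cases hab : a = b
    · subst hab
      simp
    · rw [Matrix.diagonal_apply_ne _ hab]
      have h1 : a ∉ ({i} : Finset (Fin n)) ∨ b ∉ ({i} : Finset (Fin n)) := by
        by_contra hcon
        push Not at hcon
        rw [Finset.mem_singleton, Finset.mem_singleton] at hcon
        exact hab (hcon.1.trans hcon.2.symm)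
      rw [hg' a b h1, if_neg hab]
  apply Subtype.ext
  show (g : Matrix (Fin n) (Fin n) ℂ) * (h : Matrix (Fin n) (Fin n) ℂ) =
    (h : Matrix (Fin n) (Fin n) ℂ) * (g : Matrix (Fin n) (Fin n) ℂ)
  rw [hgd]
  ext a b
  rw [Matrix.diagonal_mul, Matrix.mul_diagonal]
  by_cases hab : a = b
  · subst hab
    ring
  · by_cases ha : a = i
    · have h1 := hh' a b (Or.inl (by rw [ha]; exact hi))
      rw [h1, if_neg hab, mul_zero, zero_mul]
    · by_cases hb : b = i
      · have h1 := hh' a b (Or.inr (by rw [hb]; exact hi))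
        rw [h1, if_neg hab, mul_zero, zero_mul]
      · have h2 := hg' a a (Or.inl (by rw [Finset.mem_singleton]; exact ha))
        have h3 := hg' b b (Or.inl (by rw [Finset.mem_singleton]; exact hb))
        rw [h2, h3, if_pos rfl, if_pos rfl, one_mul, mul_one]

/-- an operator `ρ(h)` that commutes with all `ρ(g)`, `g ∈ U_B`, commutes with the average -/
theorem op_comm_P (ρ : URep n) (B : Finset (Fin n)) (h : UU n)
    (hc : ∀ g ∈ UB B, h * g = g * h) : ρ.op h * ρ.P B = ρ.P B * ρ.op h := by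
  ext1 y
  refine ext_inner_left ℂ fun x => ?_
  show inner ℂ x (ρ.op h (ρ.P B y)) = inner ℂ x (ρ.P B (ρ.op h y))
  have h1 : inner ℂ x (ρ.op h (ρ.P B y)) = inner ℂ (ρ.op h⁻¹ x) (ρ.P B y) := by
    rw [inner_op_left, inv_inv]
  rw [h1, inner_P, inner_P]
  refine integral_congr_ae (Filter.Eventually.of_forall fun g => ?_)
  show inner ℂ (ρ.op h⁻¹ x) (ρ.op (g : UU n) y) = inner ℂ x (ρ.op (g : UU n) (ρ.op h y))
  have h2 : ρ.op h (ρ.op (g : UU n) y) = ρ.op (g : UU n) (ρ.op h y) := by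
    have h3 : ρ.op h * ρ.op (g : UU n) = ρ.op (g : UU n) * ρ.op h := by
      rw [← op_mul, ← op_mul, hc g g.2]
    exact congrArg (fun T : ρ.Sp →L[ℂ] ρ.Sp => T y) h3
  rw [inner_op_left, inv_inv, h2]

theorem P_comm (ρ : URep n) (i : Fin n) (B : Finset (Fin n)) :
    ρ.P {i} * ρ.P B = ρ.P B * ρ.P {i} := by
  by_cases hi : i ∈ B
  · have h1 : ρ.P {i} * ρ.P B = ρ.P B := by
      ext1 y
      refine P_inv ρ {i} _ fun h hh => ?_
      exact P_apply_inv ρ B y h (UB_mono (Finset.singleton_subset_iff.mpr hi) hh)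
    have h2 : star (ρ.P {i} * ρ.P B) = star (ρ.P B) := by rw [h1]
    rw [star_mul, P_star, P_star] at h2
    rw [h1, h2]
  · ext1 y
    refine ext_inner_left ℂ fun x => ?_
    show inner ℂ x (ρ.P {i} (ρ.P B y)) = inner ℂ x (ρ.P B (ρ.P {i} y))
    have h1 : inner ℂ x (ρ.P B (ρ.P {i} y)) = inner ℂ (ρ.P B x) (ρ.P {i} y) := by
      conv_lhs => rw [← P_star ρ B]
      rw [ContinuousLinearMap.star_eq_adjoint, ContinuousLinearMap.adjoint_inner_right]
    rw [h1, inner_P, inner_P]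
    refine integral_congr_ae (Filter.Eventually.of_forall fun g => ?_)
    show inner ℂ x (ρ.op (g : UU n) (ρ.P B y)) = inner ℂ (ρ.P B x) (ρ.op (g : UU n) y)
    have h2 : ρ.op (g : UU n) * ρ.P B = ρ.P B * ρ.op (g : UU n) :=
      op_comm_P ρ B g fun k hk => comm_of_notMem hi g.2 hk
    have h3 : ρ.op (g : UU n) (ρ.P B y) = ρ.P B (ρ.op (g : UU n) y) :=
      congrArg (fun T : ρ.Sp →L[ℂ] ρ.Sp => T y) h2
    rw [h3]
    conv_lhs => rw [← P_star ρ B]
    rw [ContinuousLinearMap.star_eq_adjoint, ContinuousLinearMap.adjoint_inner_right]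

theorem P_mul_single (ρ : URep n) {i : Fin n} {B : Finset (Fin n)} (hi : i ∈ B) :
    ρ.P B * ρ.P {i} = ρ.P B := by
  rw [← P_comm]
  ext1 y
  refine P_inv ρ {i} _ fun h hh => ?_
  exact P_apply_inv ρ B y h (UB_mono (Finset.singleton_subset_iff.mpr hi) hh)

theorem lapOp_comm (ρ : URep n) (w : Finset (Fin n) → ℝ) (i : Fin n) :
    LOW.lapOp ρ w * ρ.P {i} = ρ.P {i} * LOW.lapOp ρ w := by
  rw [LOW.lapOp_eq, Finset.sum_mul, Finset.mul_sum]
  refine Finset.sum_congr rfl fun B _ => ?_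
  rw [smul_mul_assoc, mul_smul_comm, sub_mul, mul_sub, one_mul, mul_one, P_comm]

theorem sum_sq_single (B : Finset (Fin n)) (i : Fin n) :
    ∑ j, H47.dv B (Pi.single i (1 : ℝ)) j ^ 2 =
      if i ∈ B then 1 - 1 / (B.card : ℝ) else 0 := by
  have h1 : ∑ j, H47.dv B (Pi.single i (1 : ℝ)) j ^ 2 =
      ∑ j, H47.dv B (Pi.single i (1 : ℝ)) j * (Pi.single i (1 : ℝ) : Fin n → ℝ) j := by
    rw [H47.dv_mul_eq]
    refine Finset.sum_congr rfl fun j _ => ?_
    ring
  rw [h1, Finset.sum_eq_single i]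
  · rw [Pi.single_eq_same, mul_one]
    by_cases hi : i ∈ B
    · rw [H47.dv_of_mem hi, if_pos hi, Pi.single_eq_same]
      have h2 : ∑ j ∈ B, (Pi.single i (1 : ℝ) : Fin n → ℝ) j = 1 := by
        rw [Finset.sum_eq_single i]
        · simp
        · intro j _ hj
          exact Pi.single_eq_of_ne hj 1
        · intro h
          exact absurd hi h
      rw [h2]
    · rw [H47.dv_of_notMem hi, if_neg hi]
  · intro j _ hj
    rw [Pi.single_eq_of_ne hj, mul_zero]
  · intro h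
    exact absurd (Finset.mem_univ i) h

theorem mu_le (hn : 2 ≤ n) (w : Finset (Fin n) → ℝ) (hw : ∀ B, 0 ≤ w B) (μ : ℝ)
    (hμ : OneBody w μ) (i : Fin n) :
    μ ≤ ∑ B : Finset (Fin n), (if i ∈ B then w B else 0) := by
  have h1 := hμ (Pi.single i 1)
  simp_rw [sum_sq_single] at h1
  rw [if_pos (Finset.mem_univ i), Finset.card_univ, Fintype.card_fin] at h1
  have hn' : (2 : ℝ) ≤ n := by exact_mod_cast hn
  have hpos : 0 < 1 - 1 / (n : ℝ) := by
    have h2 : 1 / (n : ℝ) ≤ 1 / 2 := one_div_le_one_div_of_le (by norm_num) hn'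
    linarith
  have h3 : ∑ B : Finset (Fin n), w B * (if i ∈ B then 1 - 1 / (B.card : ℝ) else 0) ≤
      (∑ B : Finset (Fin n), (if i ∈ B then w B else 0)) * (1 - 1 / (n : ℝ)) := by
    rw [Finset.sum_mul]
    refine Finset.sum_le_sum fun B _ => ?_
    by_cases hi : i ∈ B
    · rw [if_pos hi, if_pos hi]
      refine mul_le_mul_of_nonneg_left ?_ (hw B)
      have h4 : 0 < B.card := Finset.card_pos.mpr ⟨i, hi⟩
      have h5 : B.card ≤ n := by
        have := Finset.card_le_univ B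
        rwa [Fintype.card_fin] at this
      have h6 : 1 / (n : ℝ) ≤ 1 / (B.card : ℝ) :=
        one_div_le_one_div_of_le (by exact_mod_cast h4) (by exact_mod_cast h5)
      linarith
    · rw [if_neg hi, if_neg hi, mul_zero, zero_mul]
  exact le_of_mul_le_mul_right (h1.trans h3) hpos

theorem wts : WTSStmt := by
  classical
  intro n hn ρ w hw μ hμ x v hv hx
  by_cases hall : ∀ (i : Fin n), ∀ h ∈ UB ({i} : Finset (Fin n)), ρ.mat h *ᵥ v = v
  · exact Or.inr hall
  left
  push Not at hall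
  obtain ⟨i, h, hh, hne⟩ := hall
  let V : ρ.Sp := WithLp.toLp 2 v
  have hop : ρ.op h V = WithLp.toLp 2 (ρ.mat h *ᵥ v) := rfl
  let V' : ρ.Sp := V - ρ.P {i} V
  have hV' : V' ≠ 0 := by
    intro h0
    have h1 : V = ρ.P {i} V := sub_eq_zero.mp h0
    have h2 : ρ.op h V = V := by
      rw [h1]
      exact P_apply_inv ρ {i} V h hh
    rw [hop] at h2
    apply hne
    have h3 := congrArg WithLp.ofLp h2
    exact h3
  have hlapV : LOW.lapOp ρ w V = (x : ℂ) • V := by
    have : LOW.lapOp ρ w V = WithLp.toLp 2 (ρ.lap w *ᵥ v) := rfl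
    rw [this, hx]
    rfl
  have hlapV' : LOW.lapOp ρ w V' = (x : ℂ) • V' := by
    have h1 : LOW.lapOp ρ w (ρ.P {i} V) = ρ.P {i} (LOW.lapOp ρ w V) :=
      congrArg (fun T : ρ.Sp →L[ℂ] ρ.Sp => T V) (lapOp_comm ρ w i)
    simp only [V']
    rw [map_sub, h1, hlapV, map_smul, smul_sub]
  have hPV' : ∀ B : Finset (Fin n), i ∈ B → ρ.P B V' = 0 := by
    intro B hB
    simp only [V']
    rw [map_sub]
    have h1 : ρ.P B (ρ.P {i} V) = ρ.P B V :=
      congrArg (fun T : ρ.Sp →L[ℂ] ρ.Sp => T V) (P_mul_single ρ hB)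
    rw [h1, sub_self]
  -- normalize
  let u : ρ.Sp := ((‖V'‖⁻¹ : ℝ) : ℂ) • V'
  have hu : ‖u‖ = 1 := by
    have h0 : ‖V'‖ ≠ 0 := norm_ne_zero_iff.mpr hV'
    simp only [u, norm_smul, Complex.norm_real, norm_inv, norm_norm]
    exact inv_mul_cancel₀ h0
  have hlapu : LOW.lapOp ρ w u = (x : ℂ) • u := by
    simp only [u, map_smul, hlapV']
    rw [smul_comm]
  have hPu : ∀ B : Finset (Fin n), i ∈ B → ρ.P B u = 0 := by
    intro B hB
    simp only [u, map_smul, hPV' B hB, smul_zero]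
  have hxe := LOW.eig_eq ρ w u hu x hlapu
  refine (mu_le hn w hw μ hμ i).trans ?_
  rw [hxe]
  refine Finset.sum_le_sum fun B _ => ?_
  by_cases hB : i ∈ B
  · rw [if_pos hB, hPu B hB, sub_zero, hu, one_pow, mul_one]
  · rw [if_neg hB]
    exact mul_nonneg (hw B) (sq_nonneg _)

end Pool.Agent.BSE.H81
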