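import Pool.Agent.BSE.Stmts
import Pool.Agent.Helper64_FR.FIX

/-!
# Module INV: the Haar measure of `U_B` is right invariant and inversion invariant
-/

open MeasureTheory Matrix Finset
open scoped ComplexConjugate ENNReal

namespace Pool.Agent.BSE.H81

open Pool.Agent.Helper64_FR

section Compact

variable {G : Type*} [Group G] [TopologicalSpace G] [IsTopologicalGroup G] [CompactSpace G]
  [MeasurableSpace G] [BorelSpace G] (μ : Measure G) [μ.IsHaarMeasure]

theorem eq_of_compact (ν : Measure G) [ν.IsMulLeftInvariant] [IsFiniteMeasureOnCompacts ν]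
    (h : ν Set.univ = μ Set.univ) : ν = μ := by
  have h1 := Measure.isMulInvariant_eq_smul_of_compactSpace ν μ
  have h2 : (Measure.haarScalarFactor ν μ : ℝ≥0∞) * μ Set.univ = 1 * μ Set.univ := by
    rw [one_mul]
    conv_rhs => rw [← h, h1]
    rw [Measure.smul_apply]; rfl
  have h3 : (Measure.haarScalarFactor ν μ : ℝ≥0∞) = 1 := by
    refine (ENNReal.mul_left_inj ?_ ?_).mp h2
    · exact (IsOpen.measure_pos μ isOpen_univ Set.univ_nonempty).ne'
    · exact (isCompact_univ.measure_lt_top).ne
  have h4 : Measure.haarScalarFactor ν μ = 1 := by exact_mod_cast h3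
  rw [h1, h4, one_smul]

theorem isMulRightInvariant_of_compact : μ.IsMulRightInvariant := by
  constructor
  intro g
  have : IsFiniteMeasureOnCompacts (μ.map (· * g)) := by
    constructor
    intro K hK
    have hm : Measurable (fun x : G => x * g) := (continuous_mul_const g).measurable
    refine lt_of_le_of_lt (measure_mono (Set.subset_univ _)) ?_
    rw [Measure.map_apply hm MeasurableSet.univ]
    exact lt_of_le_of_lt (measure_mono (Set.subset_univ _)) isCompact_univ.measure_lt_top
  apply eq_of_compact
  rw [Measure.map_apply (continuous_mul_const g).measurable MeasurableSet.univ, Set.preimage_univ]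

theorem isInvInvariant_of_compact : μ.IsInvInvariant := by
  constructor
  have := isMulRightInvariant_of_compact μ
  apply eq_of_compact
  rw [Measure.inv_apply, Set.inv_univ]

end Compact

instance instHaar {n : ℕ} (B : Finset (Fin n)) : (haarB B).IsHaarMeasure := by
  unfold haarB
  infer_instance

theorem inv : INVStmt := by
  intro n B
  have h1 := isMulRightInvariant_of_compact (haarB B)
  have h2 := isInvInvariant_of_compact (haarB B)
  refine ⟨FIX.instFiniteHaarB B, fun f => ⟨fun h => ?_, fun h => ?_, ?_⟩⟩
  · exact integral_mul_left_eq_self f h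
  · exact integral_mul_right_eq_self f h
  · exact integral_inv_eq_self f (haarB B)

end Pool.Agent.BSE.H81
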